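import Pool.Agent.Helper61.QT.GoalsP

/-!
# Project QT+ (MP_0ebdb3_gt), packet DTP: the data of the ODE part in the sheared coordinates
-/

set_option autoImplicit false

open Set ComplexConjugate

namespace Pool.Agent.Helper39.QT

open Pool.Agent.Helper61 Pool.Agent.Helper61.QG Pool.Agent.Helper61.QT
open Pool.Agent.Helper61.QS (V En rk R4)
open Pool.Agent.Helper61.QM (Model W2 Mab pol2 act2)

/-- the derivative of the shear on `c`. -/
noncomputable def dsh (φ : ℝ × ℝ → ℝ × ℝ) (z : ℝ × ℝ) (c : R4) : R4 :=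
  (c.1, c.2.1, c.2.2.1 + (fderiv ℝ φ z (c.1, c.2.1)).1, c.2.2.2 + (fderiv ℝ φ z (c.1, c.2.1)).2)

theorem shr_smooth {φ : ℝ × ℝ → ℝ × ℝ} (hφ : ContDiff ℝ 2 φ) : ContDiff ℝ 2 (shr φ) := by
  have h : ContDiff ℝ 2 (fun x : R4 => φ (x.1, x.2.1)) := hφ.comp (by fun_prop)
  unfold shr
  have h1 : ContDiff ℝ 2 (fun x : R4 => (φ (x.1, x.2.1)).1) := h.fst
  have h2 : ContDiff ℝ 2 (fun x : R4 => (φ (x.1, x.2.1)).2) := h.snd
  fun_prop

theorem shr_fderiv {φ : ℝ × ℝ → ℝ × ℝ} (hφ : ContDiff ℝ 2 φ) (x c : R4) :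
    fderiv ℝ (shr φ) x c = dsh φ (x.1, x.2.1) c := by
  have hd : HasFDerivAt φ (fderiv ℝ φ (x.1, x.2.1)) (x.1, x.2.1) :=
    ((hφ.differentiable (by norm_num)) _).hasFDerivAt
  have h0 : HasFDerivAt (fun y : R4 => y) (ContinuousLinearMap.id ℝ R4) x := hasFDerivAt_id x
  have h1 : HasFDerivAt (fun y : R4 => y.1) ((ContinuousLinearMap.fst ℝ ℝ (ℝ × ℝ × ℝ))) x :=
    hasFDerivAt_fst
  have h2' : HasFDerivAt (fun y : R4 => y.2) ((ContinuousLinearMap.snd ℝ ℝ (ℝ × ℝ × ℝ))) x :=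
    hasFDerivAt_snd
  have h2 : HasFDerivAt (fun y : R4 => y.2.1) ((ContinuousLinearMap.fst ℝ ℝ (ℝ × ℝ)).comp
      (ContinuousLinearMap.snd ℝ ℝ (ℝ × ℝ × ℝ))) x := h2'.fst
  have h3 : HasFDerivAt (fun y : R4 => y.2.2.1) ((ContinuousLinearMap.fst ℝ ℝ ℝ).comp
      ((ContinuousLinearMap.snd ℝ ℝ (ℝ × ℝ)).comp
      (ContinuousLinearMap.snd ℝ ℝ (ℝ × ℝ × ℝ)))) x := h2'.snd.fst
  have h4 : HasFDerivAt (fun y : R4 => y.2.2.2) ((ContinuousLinearMap.snd ℝ ℝ ℝ).comp
      ((ContinuousLinearMap.snd ℝ ℝ (ℝ × ℝ)).comp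
      (ContinuousLinearMap.snd ℝ ℝ (ℝ × ℝ × ℝ)))) x := h2'.snd.snd
  have h5 : HasFDerivAt (fun y : R4 => φ (y.1, y.2.1)) ((fderiv ℝ φ (x.1, x.2.1)).comp
      ((ContinuousLinearMap.fst ℝ ℝ (ℝ × ℝ × ℝ)).prod ((ContinuousLinearMap.fst ℝ ℝ (ℝ × ℝ)).comp
      (ContinuousLinearMap.snd ℝ ℝ (ℝ × ℝ × ℝ))))) x :=
    HasFDerivAt.comp (f := fun y : R4 => (y.1, y.2.1)) x hd (h1.prodMk h2)
  have h6 := h1.prodMk (h2.prodMk ((h3.add h5.fst).prodMk (h4.add h5.snd)))
  have h7 : HasFDerivAt (shr φ) _ x := h6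
  rw [h7.fderiv]
  rfl

/-- second derivatives cancel. -/
theorem curl_pull {E : Type} [NormedAddCommGroup E] [NormedSpace ℝ E] {σ : R4 → R4}
    (hσ : ContDiff ℝ 2 σ) {β : R4 → R4 →L[ℝ] E} (hβ : Differentiable ℝ β) (x a b : R4) :
    fderiv ℝ (fun y => β (σ y) (fderiv ℝ σ y b)) x a
      - fderiv ℝ (fun y => β (σ y) (fderiv ℝ σ y a)) x b
    = fderiv ℝ β (σ x) (fderiv ℝ σ x a) (fderiv ℝ σ x b)
      - fderiv ℝ β (σ x) (fderiv ℝ σ x b) (fderiv ℝ σ x a) := by
  have hσd : Differentiable ℝ σ := hσ.differentiable (by norm_num)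
  have hS : ContDiff ℝ 1 (fderiv ℝ σ) := hσ.fderiv_right (by norm_num)
  have hSd : Differentiable ℝ (fderiv ℝ σ) := hS.differentiable (by norm_num)
  have key : ∀ a b : R4, fderiv ℝ (fun y => β (σ y) (fderiv ℝ σ y b)) x a
      = fderiv ℝ β (σ x) (fderiv ℝ σ x a) (fderiv ℝ σ x b)
        + β (σ x) (fderiv ℝ (fderiv ℝ σ) x a b) := by
    intro a b
    have h1 : HasFDerivAt (fun y => β (σ y)) ((fderiv ℝ β (σ x)).comp (fderiv ℝ σ x)) x :=
      HasFDerivAt.comp x (hβ (σ x)).hasFDerivAt (hσd x).hasFDerivAt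
    have h2 : HasFDerivAt (fun y => fderiv ℝ σ y b) ((fderiv ℝ (fderiv ℝ σ) x).flip b) x := by
      have := (hSd x).hasFDerivAt.clm_apply (hasFDerivAt_const b x)
      simpa using this
    have h3 := h1.clm_apply h2
    rw [h3.fderiv]
    simp only [ContinuousLinearMap.add_apply, ContinuousLinearMap.comp_apply,
      ContinuousLinearMap.flip_apply]
    rw [add_comm]
  have hsym : fderiv ℝ (fderiv ℝ σ) x a b = fderiv ℝ (fderiv ℝ σ) x b a := by
    have := (hσ.contDiffAt (x := x)).isSymmSndFDerivAt (by simp)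
    exact this a b
  rw [key a b, key b a, hsym]
  abel

/-- PACKET DTP -/
theorem goalDTP (hPL : G_PL2) : G_DTP := by
  intro a b hab k n e B φ Ar As hB hφ hA hF
  have hab1 : a * b ≠ 1 := by
    rcases hab with h | ⟨h1, h2⟩
    · rw [h, mul_zero]
      norm_num
    · rw [h1, h2]
      norm_num
  obtain ⟨hpol, hfd⟩ := hPL a b hab1
  have hsm := hpol.smooth
  have hX := hpol.mem
  have hT := hpol.tan
  have hσ := shr_smooth hφ
  have hσd : Differentiable ℝ (shr φ) := hσ.differentiable (by norm_num)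
  have hpsh : ContDiff ℝ 2 (psh φ) := (hsm.of_le (by norm_num)).comp hσ
  have hfpsh : ContDiff ℝ 1 (fderiv ℝ (psh φ)) := hpsh.fderiv_right (by norm_num)
  have hfsm : ContDiff ℝ 2 (fderiv ℝ pol2) := hsm.fderiv_right (by norm_num)
  have hBp : ContDiff ℝ 2 (fun x => B (psh φ x)) := (hB.smooth_B.of_le (by norm_num)).comp hpsh
  have hep : ContDiff ℝ 2 (fun x => e (psh φ x)) := (hB.smooth_e.of_le (by norm_num)).comp hpsh
  have hbb : ContDiff ℝ 1 (bG B (psh φ)) :=
    (hBp.of_le (by norm_num)).clm_apply (hfpsh.clm_apply contDiff_const)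
  have hcc : ContDiff ℝ 1 (cG B (psh φ)) :=
    (hBp.of_le (by norm_num)).clm_apply (hfpsh.clm_apply contDiff_const)
  have hfp : ∀ x c, fderiv ℝ (psh φ) x c
      = fderiv ℝ pol2 (shr φ x) (dsh φ (x.1, x.2.1) c) := by
    intro x c
    have h1 : fderiv ℝ (psh φ) x = (fderiv ℝ pol2 (shr φ x)).comp (fderiv ℝ (shr φ) x) := by
      apply fderiv_comp x
      · exact (hsm.differentiable (by norm_num)) _
      · exact hσd x
    rw [h1, ContinuousLinearMap.comp_apply, shr_fderiv hφ]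
  have hd1 : ∀ z, dsh φ z (1, 0, 0, 0) = (1, 0, -(Ar z).1, -(Ar z).2) := by
    intro z
    simp [dsh, (hA z).1]
  have hd2 : ∀ z, dsh φ z (0, 1, 0, 0) = (0, 1, -(As z).1, -(As z).2) := by
    intro z
    simp [dsh, (hA z).2]
  have hXp : ∀ x, psh φ x ∈ (Mab a b).X := fun x => hX _
  have hTp : ∀ x c, fderiv ℝ (psh φ) x c ∈ (Mab a b).T (psh φ x) := by
    intro x c
    rw [hfp]
    exact hT _ _
  have hchain : ∀ x c, fderiv ℝ (fun x => e (psh φ x)) x c =
      B (psh φ x) (fderiv ℝ (psh φ) x c) * e (psh φ x)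
        - e (psh φ x) * B (psh φ x) (fderiv ℝ (psh φ) x c) := by
    intro x c
    have h1 : fderiv ℝ (fun x => e (psh φ x)) x
        = (fderiv ℝ e (psh φ x)).comp (fderiv ℝ (psh φ) x) := by
      apply fderiv_comp x
      · exact (hB.smooth_e.differentiable (by norm_num)) _
      · exact (hpsh.differentiable (by norm_num)) _
    rw [h1, ContinuousLinearMap.comp_apply, hB.par _ (hXp x) _ (hTp x c)]
  have hb' : ∀ x, bG B (psh φ) x
      = B (pol2 (shr φ x)) (fderiv ℝ pol2 (shr φ x) (1, 0, -(Ar (x.1, x.2.1)).1,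
        -(Ar (x.1, x.2.1)).2)) := by
    intro x
    unfold bG
    rw [hfp, hd1]
    rfl
  have hc' : ∀ x, cG B (psh φ) x
      = B (pol2 (shr φ x)) (fderiv ℝ pol2 (shr φ x) (0, 1, -(As (x.1, x.2.1)).1,
        -(As (x.1, x.2.1)).2)) := by
    intro x
    unfold cG
    rw [hfp, hd2]
    rfl
  -- the curvature
  have hFG : ∀ x, FG B (psh φ) x = Fcd B pol2 (shr φ x) (hr Ar (shr φ x)) (hs As (shr φ x)) := by
    intro x
    let β : R4 → R4 →L[ℝ] En n := fun y => (B (pol2 y)).comp (fderiv ℝ pol2 y)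
    have hβ : ContDiff ℝ 2 β :=
      ((hB.smooth_B.comp hsm).of_le (by norm_num)).clm_comp hfsm
    have hβd : Differentiable ℝ β := hβ.differentiable (by norm_num)
    have hbb' : bG B (psh φ) = fun y => β (shr φ y) (fderiv ℝ (shr φ) y (1, 0, 0, 0)) := by
      funext y
      show B (psh φ y) (fderiv ℝ (psh φ) y (1, 0, 0, 0)) = _
      rw [hfp, ← shr_fderiv hφ]
      rfl
    have hcc' : cG B (psh φ) = fun y => β (shr φ y) (fderiv ℝ (shr φ) y (0, 1, 0, 0)) := by
      funext y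
      show B (psh φ y) (fderiv ℝ (psh φ) y (0, 1, 0, 0)) = _
      rw [hfp, ← shr_fderiv hφ]
      rfl
    have e1 : fderiv ℝ (shr φ) x (1, 0, 0, 0) = hr Ar (shr φ x) := by
      rw [shr_fderiv hφ, hd1]
      rfl
    have e2 : fderiv ℝ (shr φ) x (0, 1, 0, 0) = hs As (shr φ x) := by
      rw [shr_fderiv hφ, hd2]
      rfl
    have hcurl := curl_pull hσ hβd x (1, 0, 0, 0) (0, 1, 0, 0)
    rw [← hbb', ← hcc', e1, e2] at hcurl
    have hev : ∀ (y c d : R4), fderiv ℝ (fun y => B (pol2 y) (fderiv ℝ pol2 y d)) y c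
        = fderiv ℝ β y c d := by
      intro y c d
      have h2 : HasFDerivAt (fun y => β y d) ((fderiv ℝ β y).flip d) y := by
        have := (hβd y).hasFDerivAt.clm_apply (hasFDerivAt_const d y)
        simpa using this
      have h3 : (fun y => B (pol2 y) (fderiv ℝ pol2 y d)) = fun y => β y d := rfl
      rw [h3, h2.fderiv]
      rfl
    unfold FG Fcd
    rw [hcurl, hev, hev]
    have e3 : bG B (psh φ) x = B (pol2 (shr φ x)) (fderiv ℝ pol2 (shr φ x) (hr Ar (shr φ x))) :=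
      hb' x
    have e4 : cG B (psh φ) x = B (pol2 (shr φ x)) (fderiv ℝ pol2 (shr φ x) (hs As (shr φ x))) :=
      hc' x
    rw [e3, e4]
  have hexp : ∀ t : ℝ, Complex.exp (((t + 2 * Real.pi : ℝ) : ℂ) * Complex.I) =
      Complex.exp ((t : ℂ) * Complex.I) := by
    intro t
    push_cast
    rw [add_mul, Complex.exp_add, Complex.exp_two_pi_mul_I, mul_one]
  have pα : ∀ r s α β : ℝ, pol2 (r, s, α + 2 * Real.pi, β) = pol2 (r, s, α, β) := by
    intro r s α β
    simp only [pol2]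
    rw [hexp]
  have pβ : ∀ r s α β : ℝ, pol2 (r, s, α, β + 2 * Real.pi) = pol2 (r, s, α, β) := by
    intro r s α β
    simp only [pol2]
    rw [hexp]
  have fα : ∀ (r s α β : ℝ) (c : R4), fderiv ℝ pol2 (r, s, α + 2 * Real.pi, β) c =
      fderiv ℝ pol2 (r, s, α, β) c := by
    intro r s α β c
    rw [hfd, hfd]
    simp only
    rw [hexp]
  have fβ : ∀ (r s α β : ℝ) (c : R4), fderiv ℝ pol2 (r, s, α, β + 2 * Real.pi) c =
      fderiv ℝ pol2 (r, s, α, β) c := by
    intro r s α β c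
    rw [hfd, hfd]
    simp only
    rw [hexp]
  have hsh : ∀ r s α β : ℝ, shr φ (r, s, α, β) = (r, s, α + (φ (r, s)).1, β + (φ (r, s)).2) :=
    fun _ _ _ _ => rfl
  have sα : ∀ r s α β : ℝ, shr φ (r, s, α + 2 * Real.pi, β)
      = (r, s, α + (φ (r, s)).1 + 2 * Real.pi, β + (φ (r, s)).2) := by
    intro r s α β
    rw [hsh, add_right_comm]
  have sβ : ∀ r s α β : ℝ, shr φ (r, s, α, β + 2 * Real.pi)
      = (r, s, α + (φ (r, s)).1, β + (φ (r, s)).2 + 2 * Real.pi) := by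
    intro r s α β
    rw [hsh, add_right_comm β]
  refine
    { smε := hep.of_le (by norm_num)
      smp := hbb
      smq := hcc
      idem := fun x => hB.idem _ (hXp x)
      symm := fun x => hB.symm _ (hXp x)
      skp := fun x => hB.skew _ (hXp x) _ (hTp x _)
      skq := fun x => hB.skew _ (hXp x) _ (hTp x _)
      dr := fun x => hchain x _
      ds := fun x => hchain x _
      flat := ?_
      perα := ?_
      perβ := ?_
      r0 := ?_
      r1 := ?_
      s0 := ?_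
      s1 := ?_ }
  · have hcont : Continuous (fun x => FG B (psh φ) x * e (psh φ x)) := by
      have c1 : Continuous (fun x => fderiv ℝ (cG B (psh φ)) x (1, 0, 0, 0)) :=
        (hcc.continuous_fderiv (by norm_num)).clm_apply continuous_const
      have c2 : Continuous (fun x => fderiv ℝ (bG B (psh φ)) x (0, 1, 0, 0)) :=
        (hbb.continuous_fderiv (by norm_num)).clm_apply continuous_const
      have c3 := hbb.continuous
      have c4 := hcc.continuous
      have c5 := hep.continuous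
      unfold FG
      exact (((c1.sub c2).sub ((c3.mul c4).sub (c4.mul c3)))).mul c5
    have h0 : (fun x => FG B (psh φ) x * e (psh φ x)) = fun _ => 0 :=
      hcont.ext_on hpol.dense continuous_const (fun x hx => by
        show FG B (psh φ) x * e (psh φ x) = 0
        rw [hFG]
        exact hF (shr φ x) hx)
    intro x
    exact congrFun h0 x
  · intro r s α β
    refine ⟨?_, ?_, ?_⟩
    · show e (pol2 _) = e (pol2 _)
      rw [sα, pα, hsh]
    · rw [hb', hb', sα, pα, fα, hsh]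
    · rw [hc', hc', sα, pα, fα, hsh]
  · intro r s α β
    refine ⟨?_, ?_, ?_⟩
    · show e (pol2 _) = e (pol2 _)
      rw [sβ, pβ, hsh]
    · rw [hb', hb', sβ, pβ, fβ, hsh]
    · rw [hc', hc', sβ, pβ, fβ, hsh]
  · intro s α β
    have p0 : ∀ u v : ℝ, pol2 (0, s, u, β + v) = pol2 (0, s, 0, β + v) := by
      intro u v
      simp [pol2]
    have f0 : ∀ u v c3 c4 : ℝ, fderiv ℝ pol2 (0, s, u, β + v) (0, 1, c3, c4) =
        fderiv ℝ pol2 (0, s, 0, β + v) (0, 1, c3, c4) := by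
      intro u v c3 c4
      rw [hfd, hfd]
      simp
    refine ⟨?_, ?_⟩
    · show e (pol2 _) = e (pol2 _)
      rw [hsh, hsh, p0, p0 (0 + _)]
    · rw [hc', hc', hsh, hsh, p0, p0 (0 + _), f0, f0 (0 + _)]
  · intro s α β
    have hz : ‖Complex.exp ((α : ℂ) * Complex.I)‖ = 1 := Complex.norm_exp_ofReal_mul_I α
    have hw : ‖Complex.exp (((-(a * α) : ℝ) : ℂ) * Complex.I)‖ = 1 :=
      Complex.norm_exp_ofReal_mul_I _
    have hm1 : Complex.exp ((α : ℂ) * Complex.I) ^ a *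
        Complex.exp (((-(a * α) : ℝ) : ℂ) * Complex.I) = 1 := by
      rw [← Complex.exp_int_mul, ← Complex.exp_add, ← Complex.exp_zero]
      congr 1
      push_cast
      ring
    have hm2 : ∀ v : ℝ, Complex.exp (((-(a * α) : ℝ) : ℂ) * Complex.I) *
        Complex.exp (((β + a * α + v : ℝ) : ℂ) * Complex.I)
          = Complex.exp (((β + v : ℝ) : ℂ) * Complex.I) := by
      intro v
      rw [← Complex.exp_add]
      congr 1
      push_cast
      ring
    have hm3 : ∀ u : ℝ, Complex.exp ((α : ℂ) * Complex.I) *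
        Complex.exp (((0 + u : ℝ) : ℂ) * Complex.I)
          = Complex.exp (((α + u : ℝ) : ℂ) * Complex.I) := by
      intro u
      rw [← Complex.exp_add]
      congr 1
      push_cast
      ring
    have p1 : ∀ u v : ℝ, pol2 (Real.pi / 2, s, α + u, β + v) =
        act2 a b (Complex.exp ((α : ℂ) * Complex.I))
          (Complex.exp (((-(a * α) : ℝ) : ℂ) * Complex.I))
          (pol2 (Real.pi / 2, s, 0 + u, β + a * α + v)) := by
      intro u v
      simp only [pol2, act2]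
      rw [hm1, ← mul_assoc (Complex.exp (((-(a * α) : ℝ) : ℂ) * Complex.I)), hm2,
        ← mul_assoc (Complex.exp ((α : ℂ) * Complex.I)), hm3]
      simp
    have f1 : ∀ u v c3 c4 : ℝ, fderiv ℝ pol2 (Real.pi / 2, s, α + u, β + v) (0, 1, c3, c4) =
        act2 a b (Complex.exp ((α : ℂ) * Complex.I))
          (Complex.exp (((-(a * α) : ℝ) : ℂ) * Complex.I))
          (fderiv ℝ pol2 (Real.pi / 2, s, 0 + u, β + a * α + v) (0, 1, c3, c4)) := by
      intro u v c3 c4
      rw [hfd, hfd]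
      simp only [act2]
      rw [hm1, ← mul_assoc (Complex.exp (((-(a * α) : ℝ) : ℂ) * Complex.I)), hm2,
        ← mul_assoc (Complex.exp ((α : ℂ) * Complex.I)), hm3]
      simp
    have hg : act2 a b (Complex.exp ((α : ℂ) * Complex.I))
        (Complex.exp (((-(a * α) : ℝ) : ℂ) * Complex.I)) ∈ (Mab a b).Γ :=
      ⟨_, _, hz, hw, rfl⟩
    refine ⟨?_, ?_⟩
    · show e (pol2 _) = e (pol2 _)
      rw [hsh, hsh, p1]
      exact hB.inv _ hg _ (hX _)
    · rw [hc', hc', hsh, hsh, p1, f1]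
      exact hB.inv_B _ hg _ (hX _) _ (hT _ _)
  · intro r α β
    have p0 : ∀ u v : ℝ, pol2 (r, 0, α + u, v) = pol2 (r, 0, α + u, 0) := by
      intro u v
      simp [pol2]
    have f0 : ∀ u v c3 c4 : ℝ, fderiv ℝ pol2 (r, 0, α + u, v) (1, 0, c3, c4) =
        fderiv ℝ pol2 (r, 0, α + u, 0) (1, 0, c3, c4) := by
      intro u v c3 c4
      rw [hfd, hfd]
      simp
    refine ⟨?_, ?_⟩
    · show e (pol2 _) = e (pol2 _)
      rw [hsh, hsh, p0, p0 _ (0 + _)]
    · rw [hb', hb', hsh, hsh, p0, p0 _ (0 + _), f0, f0 _ (0 + _)]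
  · intro r α β
    have hz : ‖Complex.exp (((-(b * β) : ℝ) : ℂ) * Complex.I)‖ = 1 :=
      Complex.norm_exp_ofReal_mul_I _
    have hw : ‖Complex.exp ((β : ℂ) * Complex.I)‖ = 1 := Complex.norm_exp_ofReal_mul_I β
    have hm1 : Complex.exp (((-(b * β) : ℝ) : ℂ) * Complex.I) *
        Complex.exp ((β : ℂ) * Complex.I) ^ b = 1 := by
      rw [← Complex.exp_int_mul, ← Complex.exp_add, ← Complex.exp_zero]
      congr 1
      push_cast
      ring
    have hm2 : ∀ u : ℝ, Complex.exp (((-(b * β) : ℝ) : ℂ) * Complex.I) *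
        Complex.exp (((α + b * β + u : ℝ) : ℂ) * Complex.I)
          = Complex.exp (((α + u : ℝ) : ℂ) * Complex.I) := by
      intro u
      rw [← Complex.exp_add]
      congr 1
      push_cast
      ring
    have hm3 : ∀ v : ℝ, Complex.exp ((β : ℂ) * Complex.I) *
        Complex.exp (((0 + v : ℝ) : ℂ) * Complex.I)
          = Complex.exp (((β + v : ℝ) : ℂ) * Complex.I) := by
      intro v
      rw [← Complex.exp_add]
      congr 1
      push_cast
      ring
    have p1 : ∀ u v : ℝ, pol2 (r, Real.pi / 2, α + u, β + v) =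
        act2 a b (Complex.exp (((-(b * β) : ℝ) : ℂ) * Complex.I))
          (Complex.exp ((β : ℂ) * Complex.I))
          (pol2 (r, Real.pi / 2, α + b * β + u, 0 + v)) := by
      intro u v
      simp only [pol2, act2]
      rw [hm1, ← mul_assoc (Complex.exp (((-(b * β) : ℝ) : ℂ) * Complex.I)), hm2,
        ← mul_assoc (Complex.exp ((β : ℂ) * Complex.I)), hm3]
      simp
    have f1 : ∀ u v c3 c4 : ℝ, fderiv ℝ pol2 (r, Real.pi / 2, α + u, β + v) (1, 0, c3, c4) =
        act2 a b (Complex.exp (((-(b * β) : ℝ) : ℂ) * Complex.I))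
          (Complex.exp ((β : ℂ) * Complex.I))
          (fderiv ℝ pol2 (r, Real.pi / 2, α + b * β + u, 0 + v) (1, 0, c3, c4)) := by
      intro u v c3 c4
      rw [hfd, hfd]
      simp only [act2]
      rw [hm1, ← mul_assoc (Complex.exp (((-(b * β) : ℝ) : ℂ) * Complex.I)), hm2,
        ← mul_assoc (Complex.exp ((β : ℂ) * Complex.I)), hm3]
      simp
    have hg : act2 a b (Complex.exp (((-(b * β) : ℝ) : ℂ) * Complex.I))
        (Complex.exp ((β : ℂ) * Complex.I)) ∈ (Mab a b).Γ :=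
      ⟨_, _, hz, hw, rfl⟩
    refine ⟨?_, ?_⟩
    · show e (pol2 _) = e (pol2 _)
      rw [hsh, hsh, p1]
      exact hB.inv _ hg _ (hX _)
    · rw [hb', hb', hsh, hsh, p1, f1]
      exact hB.inv_B _ hg _ (hX _) _ (hT _ _)

end Pool.Agent.Helper39.QT
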